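import Mathlib

set_option autoImplicit false

open MeasureTheory Filter

namespace Pool.Agent.Results.MP_4e1dcd_co.FThree

/-- `(A, B)` is a `(k, n)`-shift pair: there are `i 0 < i 1 < ... < i k` in `Fin n` with
`A = {i 0, ..., i (k-1)}` and `B = {i 1, ..., i k}`. -/
def IsShiftPair (k n : ℕ) (A B : Finset (Fin n)) : Prop :=
  ∃ i : Fin (k + 1) → Fin n, StrictMono i ∧
    A = Finset.univ.image (fun j : Fin k => i j.castSucc) ∧
    B = Finset.univ.image (fun j : Fin k => i j.succ)

/-- `f(Ω)`: the smallest probability, over the shift pairs `(A, B)`, that `E A` occurs and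
`E B` does not. -/
noncomputable def sysValue {Ω : Type} [MeasurableSpace Ω] (P : Measure Ω) (k n : ℕ)
    (E : Finset (Fin n) → Set Ω) : ℝ :=
  ⨅ p : {p : Finset (Fin n) × Finset (Fin n) // IsShiftPair k n p.1 p.2},
    P.real (E p.1.1 ∩ (E p.1.2)ᶜ)

/-- The set of values `f(Ω)` over all probability spaces with one event per `k`-element subset
of `Fin n`. -/
def values (n k : ℕ) : Set ℝ :=
  {t | ∃ (Ω : Type) (_ : MeasurableSpace Ω) (P : Measure Ω) (_ : IsProbabilityMeasure P)
    (E : Finset (Fin n) → Set Ω), (∀ S, S.card = k → MeasurableSet (E S)) ∧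
      t = sysValue P k n E}

/-- `f(n, k)`. -/
noncomputable def fnk (n k : ℕ) : ℝ := sSup (values n k)

lemma card_left {k n : ℕ} {A B : Finset (Fin n)} (h : IsShiftPair k n A B) : A.card = k := by
  obtain ⟨i, hi, rfl, -⟩ := h
  rw [Finset.card_image_of_injective _
    (show Function.Injective (fun j : Fin k => i j.castSucc) from
      hi.injective.comp (Fin.castSucc_injective k))]
  simp

lemma card_right {k n : ℕ} {A B : Finset (Fin n)} (h : IsShiftPair k n A B) : B.card = k := by
  obtain ⟨i, hi, -, rfl⟩ := h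
  rw [Finset.card_image_of_injective _
    (show Function.Injective (fun j : Fin k => i j.succ) from
      hi.injective.comp (Fin.succ_injective k))]
  simp

instance finitePairs (k n : ℕ) :
    Finite {p : Finset (Fin n) × Finset (Fin n) // IsShiftPair k n p.1 p.2} := inferInstance

lemma nonempty_pairs {k n : ℕ} (h : k + 1 ≤ n) :
    Nonempty {p : Finset (Fin n) × Finset (Fin n) // IsShiftPair k n p.1 p.2} :=
  ⟨⟨(_, _), Fin.castLE h, Fin.strictMono_castLE h, rfl, rfl⟩⟩

lemma sysValue_le {Ω : Type} [MeasurableSpace Ω] (P : Measure Ω) {k n : ℕ}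
    (E : Finset (Fin n) → Set Ω) {A B : Finset (Fin n)} (h : IsShiftPair k n A B) :
    sysValue P k n E ≤ P.real (E A ∩ (E B)ᶜ) := by
  have := ciInf_le (f := fun p : {p : Finset (Fin n) × Finset (Fin n) //
    IsShiftPair k n p.1 p.2} => P.real (E p.1.1 ∩ (E p.1.2)ᶜ)) (Set.finite_range _).bddBelow
    ⟨(A, B), h⟩
  exact this

lemma le_sysValue {Ω : Type} [MeasurableSpace Ω] (P : Measure Ω) {k n : ℕ} (hn : k + 1 ≤ n)
    (E : Finset (Fin n) → Set Ω) (t : ℝ)
    (h : ∀ A B, IsShiftPair k n A B → t ≤ P.real (E A ∩ (E B)ᶜ)) : t ≤ sysValue P k n E := by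
  have := nonempty_pairs hn
  exact le_ciInf fun p => h _ _ p.2

lemma sysValue_nonneg {Ω : Type} [MeasurableSpace Ω] (P : Measure Ω) (k n : ℕ)
    (E : Finset (Fin n) → Set Ω) : 0 ≤ sysValue P k n E :=
  Real.iInf_nonneg fun _ => measureReal_nonneg

lemma values_le_one {n k : ℕ} (hn : k + 1 ≤ n) {t : ℝ} (ht : t ∈ values n k) : t ≤ 1 := by
  obtain ⟨Ω, _, P, _, E, -, rfl⟩ := ht
  obtain ⟨p⟩ := nonempty_pairs hn
  exact (sysValue_le P E p.2).trans measureReal_le_one

lemma bddAbove_values {n k : ℕ} (hn : k + 1 ≤ n) : BddAbove (values n k) :=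
  ⟨1, fun _ ht => values_le_one hn ht⟩

lemma values_nonempty (n k : ℕ) : (values n k).Nonempty :=
  ⟨_, Unit, inferInstance, Measure.dirac (), inferInstance, fun _ => ∅,
    fun _ _ => MeasurableSet.empty, rfl⟩

lemma fnk_nonneg (n k : ℕ) : 0 ≤ fnk n k := by
  apply Real.sSup_nonneg
  rintro t ⟨Ω, _, P, _, E, -, rfl⟩
  exact sysValue_nonneg P k n E

/-- `f(n, k)` does not increase with `n`. -/
lemma fnk_succ_le {n k : ℕ} (hn : k + 1 ≤ n) : fnk (n + 1) k ≤ fnk n k := by
  apply csSup_le (values_nonempty _ _)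
  rintro t ⟨Ω, _, P, hP, E, hE, rfl⟩
  have hmem : sysValue P k n (fun S => E (S.map Fin.castSuccEmb)) ∈ values n k :=
    ⟨Ω, _, P, hP, _, fun S hS => hE _ (by rw [Finset.card_map]; exact hS), rfl⟩
  refine le_trans ?_ (le_csSup (bddAbove_values hn) hmem)
  apply le_sysValue P hn
  rintro A B ⟨i, hi, rfl, rfl⟩
  apply sysValue_le
  refine ⟨fun j => (i j).castSucc, (Fin.strictMono_castSucc).comp hi, ?_, ?_⟩
  · ext x
    simp only [Finset.mem_map, Finset.mem_image, Finset.mem_univ, true_and]
    constructor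
    · rintro ⟨a, ⟨b, rfl⟩, rfl⟩
      exact ⟨b, rfl⟩
    · rintro ⟨b, rfl⟩
      exact ⟨_, ⟨b, rfl⟩, rfl⟩
  · ext x
    simp only [Finset.mem_map, Finset.mem_image, Finset.mem_univ, true_and]
    constructor
    · rintro ⟨a, ⟨b, rfl⟩, rfl⟩
      exact ⟨b, rfl⟩
    · rintro ⟨b, rfl⟩
      exact ⟨_, ⟨b, rfl⟩, rfl⟩

/-- The limit `f(k)` of `f(n, k)` exists. -/
lemma exists_limit (k : ℕ) : ∃ L : ℝ, Tendsto (fun n => fnk n k) atTop (nhds L) := by
  have hanti : Antitone (fun n => fnk (n + (k + 1)) k) := by
    apply antitone_nat_of_succ_le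
    intro n
    have := fnk_succ_le (n := n + (k + 1)) (k := k) (by omega)
    have e : n + 1 + (k + 1) = n + (k + 1) + 1 := by omega
    rw [e]
    exact this
  have hb : BddBelow (Set.range fun n => fnk (n + (k + 1)) k) := by
    refine ⟨0, ?_⟩
    rintro _ ⟨n, rfl⟩
    exact fnk_nonneg _ _
  exact ⟨_, (tendsto_add_atTop_iff_nat (f := fun n => fnk n k) (k + 1)).1
    (tendsto_atTop_ciInf hanti hb)⟩

section Rule

variable {k m : ℕ}

/-- The event attached to `S` by a rule `g` on words of length `k`: colour the points of `Fin n`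
by `ω` and apply `g` to the colours of the points of `S` in increasing order. -/
def ruleEvent (n : ℕ) (g : (Fin k → Fin m) → Bool) (S : Finset (Fin n)) :
    Set (Fin n → Fin m) :=
  {ω | ∃ h : S.card = k, g (fun j => ω (S.orderEmbOfFin h j)) = true}

lemma orderEmb_eq {n : ℕ} (a : Fin k → Fin n) (ha : StrictMono a)
    (h : (Finset.univ.image a).card = k) (j : Fin k) :
    (Finset.univ.image a).orderEmbOfFin h j = a j := by
  have := Finset.orderEmbOfFin_unique h (f := a)
    (fun x => Finset.mem_image_of_mem a (Finset.mem_univ x)) ha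
  rw [← this]

lemma mem_ruleEvent {n : ℕ} (g : (Fin k → Fin m) → Bool) (a : Fin k → Fin n)
    (ha : StrictMono a) (ω : Fin n → Fin m) :
    ω ∈ ruleEvent n g (Finset.univ.image a) ↔ g (fun j => ω (a j)) = true := by
  have hc : (Finset.univ.image a).card = k := by
    rw [Finset.card_image_of_injective _ ha.injective]
    simp
  constructor
  · rintro ⟨h, hg⟩
    have : (fun j => ω ((Finset.univ.image a).orderEmbOfFin h j)) = fun j => ω (a j) := by
      funext j
      rw [orderEmb_eq a ha h j]
    rw [this] at hg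
    exact hg
  · intro hg
    refine ⟨hc, ?_⟩
    have : (fun j => ω ((Finset.univ.image a).orderEmbOfFin hc j)) = fun j => ω (a j) := by
      funext j
      rw [orderEmb_eq a ha hc j]
    rw [this]
    exact hg

/-- The number of words of length `k + 1` whose first `k` letters satisfy `g` and whose last
`k` letters do not. -/
def dicut (g : (Fin k → Fin m) → Bool) : ℕ :=
  (Finset.univ.filter fun x : Fin (k + 1) → Fin m =>
    g (fun j => x j.castSucc) = true ∧ g (fun j => x j.succ) = false).card

lemma card_comp_injective {n r : ℕ} (i : Fin r → Fin n) (hi : Function.Injective i)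
    (φ : (Fin r → Fin m) → Prop) [DecidablePred φ] :
    (Finset.univ.filter fun ω : Fin n → Fin m => φ (fun j => ω (i j))).card * m ^ r =
      (Finset.univ.filter φ).card * m ^ n := by
  classical
  let e1 := Equiv.piEquivPiSubtypeProd (fun j : Fin n => j ∈ Set.range i) (fun _ => Fin m)
  let e2 : Fin r ≃ {j : Fin n // j ∈ Set.range i} := Equiv.ofInjective i hi
  let e3 : ({j : Fin n // j ∈ Set.range i} → Fin m) ≃ (Fin r → Fin m) :=
    Equiv.arrowCongr e2.symm (Equiv.refl _)
  let e : (Fin n → Fin m) ≃ (Fin r → Fin m) × ({j : Fin n // ¬ j ∈ Set.range i} → Fin m) :=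
    e1.trans (Equiv.prodCongr e3 (Equiv.refl _))
  have he : ∀ ω : Fin n → Fin m, (e ω).1 = fun j => ω (i j) := by
    intro ω
    funext j
    rfl
  have h1 : (Finset.univ.filter fun ω : Fin n → Fin m => φ (fun j => ω (i j))).card =
      ((Finset.univ.filter φ) ×ˢ
        (Finset.univ : Finset ({j : Fin n // ¬ j ∈ Set.range i} → Fin m))).card := by
    apply Finset.card_bij (fun ω _ => e ω)
    · intro ω hω
      simp only [Finset.mem_filter, Finset.mem_univ, true_and] at hω
      simp only [Finset.mem_product, Finset.mem_filter, Finset.mem_univ, true_and, and_true]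
      rw [he]
      exact hω
    · intro a _ b _ hab
      exact e.injective hab
    · intro b hb
      simp only [Finset.mem_product, Finset.mem_filter, Finset.mem_univ, true_and,
        and_true] at hb
      refine ⟨e.symm b, ?_, e.apply_symm_apply b⟩
      simp only [Finset.mem_filter, Finset.mem_univ, true_and]
      rw [← he, e.apply_symm_apply]
      exact hb
  have h2 : m ^ n = m ^ r * Fintype.card ({j : Fin n // ¬ j ∈ Set.range i} → Fin m) := by
    have := Fintype.card_congr e
    rw [Fintype.card_prod] at this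
    simpa using this
  rw [h1, Finset.card_product, h2, Finset.card_univ]
  ring

/-- A rule `g` gives a lower bound for every `f(n, k)`. -/
lemma rule_le_fnk (hm : 0 < m) (g : (Fin k → Fin m) → Bool) {n : ℕ} (hn : k + 1 ≤ n) :
    (dicut g : ℝ) / (m : ℝ) ^ (k + 1) ≤ fnk n k := by
  classical
  have : NeZero m := ⟨hm.ne'⟩
  let _ : MeasurableSpace (Fin n → Fin m) := ⊤
  let P : Measure (Fin n → Fin m) := ProbabilityTheory.uniformOn Set.univ
  have : IsProbabilityMeasure P :=
    ProbabilityTheory.isProbabilityMeasure_uniformOn Set.finite_univ Set.univ_nonempty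
  have hmem : sysValue P k n (ruleEvent n g) ∈ values n k :=
    ⟨_, _, P, inferInstance, _, fun _ _ => trivial, rfl⟩
  refine le_trans ?_ (le_csSup (bddAbove_values hn) hmem)
  apply le_sysValue P hn
  rintro A B ⟨i, hi, rfl, rfl⟩
  have hset : ruleEvent n g (Finset.univ.image fun j : Fin k => i j.castSucc) ∩
      (ruleEvent n g (Finset.univ.image fun j : Fin k => i j.succ))ᶜ =
      ((Finset.univ.filter fun ω : Fin n → Fin m =>
        (g (fun j => ω (i j.castSucc)) = true ∧ g (fun j => ω (i j.succ)) = false) :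
          Finset (Fin n → Fin m)) : Set (Fin n → Fin m)) := by
    ext ω
    simp only [Set.mem_inter_iff, Set.mem_compl_iff, Finset.coe_filter, Finset.mem_univ,
      true_and, Set.mem_ofPred_eq]
    rw [mem_ruleEvent g (fun j : Fin k => i j.castSucc) (hi.comp Fin.strictMono_castSucc),
      mem_ruleEvent g (fun j : Fin k => i j.succ) (hi.comp Fin.strictMono_succ)]
    simp
  rw [hset]
  have hcard := card_comp_injective (m := m) i hi.injective
    (fun x : Fin (k + 1) → Fin m => g (fun j => x j.castSucc) = true ∧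
      g (fun j => x j.succ) = false)
  have hP : P.real ((Finset.univ.filter fun ω : Fin n → Fin m =>
        (g (fun j => ω (i j.castSucc)) = true ∧ g (fun j => ω (i j.succ)) = false) :
          Finset (Fin n → Fin m)) : Set (Fin n → Fin m)) =
      ((Finset.univ.filter fun ω : Fin n → Fin m =>
        (g (fun j => ω (i j.castSucc)) = true ∧ g (fun j => ω (i j.succ)) = false)).card : ℝ) /
          (m : ℝ) ^ n := by
    rw [measureReal_def, ProbabilityTheory.uniformOn_univ, Measure.count_apply_finset]
    simp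
  rw [hP, div_le_div_iff₀ (by positivity) (by positivity)]
  have h3 : ((Finset.univ.filter fun ω : Fin n → Fin m =>
      (g (fun j => ω (i j.castSucc)) = true ∧ g (fun j => ω (i j.succ)) = false)).card : ℝ) *
        (m : ℝ) ^ (k + 1) = (dicut g : ℝ) * (m : ℝ) ^ n := by
    exact_mod_cast hcard
  rw [h3]

end Rule

/-- The rule with four colours: the word `a b c` is read as the number `16 a + 4 b + c` and
looked up in a table of 64 bits. -/
def rule4 (x : Fin 3 → Fin 4) : Bool :=
  Nat.testBit 3675204481540683555 (16 * (x 0).val + 4 * (x 1).val + (x 2).val)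

lemma dicut_rule4 : dicut rule4 = 97 := by
  decide +kernel

/-- `f(n, 3) ≥ 97/256` for every `n ≥ 4`. -/
lemma le_fnk_three {n : ℕ} (hn : 4 ≤ n) : (97 / 256 : ℝ) ≤ fnk n 3 := by
  have := rule_le_fnk (k := 3) (m := 4) (by norm_num) rule4 (n := n) hn
  rw [dicut_rule4] at this
  norm_num at this
  linarith

/-- The limit `f(3)` of `f(n, 3)` exists and is at least `97/256`, which is larger than
`3/8`. -/
theorem result : ∃ L : ℝ, Tendsto (fun n => fnk n 3) atTop (nhds L) ∧
    97 / 256 ≤ L ∧ 3 / 8 < L := by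
  obtain ⟨L, hL⟩ := exists_limit 3
  have h : (97 / 256 : ℝ) ≤ L := by
    apply ge_of_tendsto hL
    filter_upwards [eventually_ge_atTop 4] with n hn
    exact le_fnk_three hn
  exact ⟨L, hL, h, by linarith⟩

end Pool.Agent.Results.MP_4e1dcd_co.FThree
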