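import Mathlib
import Pool.Agent.Helper808.ShiftLimit
import Pool.Agent.Results.MP_4e1dcd_co.FThree

set_option autoImplicit false

open MeasureTheory Filter

namespace Pool.Agent.Results.MP_4e1dcd_co.FFour

open Pool.Agent.Results.MP_4e1dcd_co.FThree
open Pool.Agent.Helper808.ShiftUpper (Cfg)

/-! ### The upper bound -/

/-- The joint law of the events of a system, as weights on configurations. -/
lemma exists_weights {Ω : Type} [MeasurableSpace Ω] (P : Measure Ω) [IsProbabilityMeasure P]
    (k n : ℕ) (E : Finset (Fin n) → Set Ω) (hE : ∀ S, S.card = k → MeasurableSet (E S)) :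
    ∃ v : Cfg n → ℝ, (∀ x, 0 ≤ v x) ∧ ∑ x, v x = 1 ∧
      ∀ A B : Finset (Fin n), A.card = k → B.card = k →
        ∑ x, v x * (if x A = true ∧ x B = false then 1 else 0) = P.real (E A ∩ (E B)ᶜ) := by
  classical
  let T : Ω → Cfg n := fun ω S => decide (ω ∈ E S ∧ S.card = k)
  have hT : Measurable T := by
    rw [measurable_pi_iff]
    intro S
    apply measurable_to_bool
    by_cases hS : S.card = k
    · have : (fun ω => T ω S) ⁻¹' {true} = E S := by
        ext ω
        simp [T, hS]
      rw [this]
      exact hE S hS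
    · have : (fun ω => T ω S) ⁻¹' {true} = ∅ := by
        ext ω
        simp [T, hS]
      rw [this]
      exact MeasurableSet.empty
  have hsing : ∀ x : Cfg n, MeasurableSet (T ⁻¹' {x}) := fun x => hT (measurableSet_singleton x)
  have hsum : ∀ s : Finset (Cfg n), ∑ x ∈ s, P.real (T ⁻¹' {x}) = P.real (T ⁻¹' s) := by
    intro s
    have := sum_measureReal_preimage_singleton (μ := P) s (f := T) (fun y _ => hsing y)
    exact this
  refine ⟨fun x => P.real (T ⁻¹' {x}), fun _ => measureReal_nonneg, ?_, ?_⟩
  · rw [hsum Finset.univ]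
    simp
  · intro A B hA hB
    have e : ∀ x : Cfg n, P.real (T ⁻¹' {x}) * (if x A = true ∧ x B = false then (1 : ℝ) else 0) =
        if x A = true ∧ x B = false then P.real (T ⁻¹' {x}) else 0 := by
      intro x
      split_ifs <;> simp
    simp_rw [e]
    rw [← Finset.sum_filter, hsum]
    congr 1
    ext ω
    simp [T, hA, hB]

/-- The upper bound: if `c ≤ f(n, k)` for all large `n`, strictly, then `c` is at most
`⌊(k + 1) / 2⌋ / (k + 1)`. -/
lemma upper (k : ℕ) (c : ℝ) (hc : ∀ n, k + 1 ≤ n → c < fnk n k) :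
    c ≤ (((k + 1) / 2 : ℕ) : ℝ) / ((k + 1 : ℕ) : ℝ) := by
  classical
  have hex : ∀ n : ℕ, ∃ v : Cfg (n + 1) → ℝ, (∀ x, 0 ≤ v x) ∧ ∑ x, v x = 1 ∧
      ∀ i : Fin (k + 1) → Fin (n + 1), StrictMono i →
      c ≤ ∑ x, v x * (if x (Finset.univ.image fun j : Fin k => i j.castSucc) = true ∧
        x (Finset.univ.image fun j : Fin k => i j.succ) = false then 1 else 0) := by
    intro n
    by_cases hn : k + 1 ≤ n + 1
    · obtain ⟨t, ht, hct⟩ := exists_lt_of_lt_csSup (values_nonempty _ _) (hc (n + 1) hn)
      obtain ⟨Ω, _, P, hP, E, hE, rfl⟩ := ht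
      obtain ⟨v, h0, h1, h2⟩ := exists_weights P k (n + 1) E hE
      refine ⟨v, h0, h1, fun i hi => ?_⟩
      have hs : IsShiftPair k (n + 1) (Finset.univ.image fun j : Fin k => i j.castSucc)
          (Finset.univ.image fun j : Fin k => i j.succ) := ⟨i, hi, rfl, rfl⟩
      rw [h2 _ _ (card_left hs) (card_right hs)]
      exact hct.le.trans (sysValue_le P E hs)
    · refine ⟨fun x => if x = (fun _ => false) then 1 else 0, ?_, ?_, ?_⟩
      · intro x
        simp only
        split_ifs <;> norm_num
      · simp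
      · intro i hi
        exfalso
        apply hn
        have := Fintype.card_le_of_injective i hi.injective
        simpa using this
  choose v h0 h1 h2 using hex
  exact Pool.Agent.Helper808.ShiftLimit.weights_upper v h0 h1 k c h2

lemma le_of_limit {k : ℕ} {L : ℝ} (hL : Tendsto (fun n => fnk n k) atTop (nhds L)) :
    L ≤ (((k + 1) / 2 : ℕ) : ℝ) / ((k + 1 : ℕ) : ℝ) := by
  apply le_of_forall_lt
  intro c hc
  obtain ⟨c', hc1, hc2⟩ := exists_between hc
  refine hc1.trans_le (upper k c' ?_)
  intro n hn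
  refine hc2.trans_le ?_
  have hanti : ∀ j : ℕ, fnk (n + j) k ≤ fnk n k := by
    intro j
    induction j with
    | zero => exact le_refl _
    | succ j ih => exact (fnk_succ_le (n := n + j) (by omega)).trans ih
  have h1 : Tendsto (fun j => fnk (n + j) k) atTop (nhds L) := by
    have := (tendsto_add_atTop_iff_nat (f := fun n => fnk n k) n).2 hL
    simp_rw [add_comm n]
    exact this
  exact le_of_tendsto h1 (Eventually.of_forall hanti)

/-! ### The lower bound for even `k` -/

/-- The rule: the first maximum of the word stands at an even position. -/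
def evenRule {k m : ℕ} (c : Fin k → Fin m) : Bool :=
  decide (∃ j : Fin k, j.val % 2 = 0 ∧ (∀ i, i < j → c i < c j) ∧ ∀ i, j < i → c i ≤ c j)

lemma evenRule_eq {k m : ℕ} (c : Fin k → Fin m) (j : Fin k) (h : ∀ i, i ≠ j → c i < c j) :
    evenRule c = decide (j.val % 2 = 0) := by
  unfold evenRule
  rw [decide_eq_decide]
  constructor
  · rintro ⟨j', he, h1, h2⟩
    have : j' = j := by
      by_contra hne
      rcases lt_or_gt_of_ne hne with hlt | hgt
      · have := h2 j hlt
        exact absurd (h j' hne) (not_lt.2 this)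
      · have := h1 j hgt
        exact absurd (h j' hne) (not_lt.2 this.le)
    rw [← this]
    exact he
  · intro he
    exact ⟨j, he, fun i hi => h i hi.ne, fun i hi => (h i hi.ne').le⟩

/-- The window of length `k` of a cyclic word of length `k + 1` that starts at `a`. -/
def win {k m : ℕ} (x : ZMod (k + 1) → Fin m) (a : ZMod (k + 1)) : Fin k → Fin m :=
  fun i => x (a + ((i : ℕ) : ZMod (k + 1)))

lemma natCast_inj {k i j : ℕ} (hi : i < k + 1) (hj : j < k + 1)
    (h : ((i : ℕ) : ZMod (k + 1)) = (j : ℕ)) : i = j := by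
  rw [ZMod.natCast_eq_natCast_iff'] at h
  rwa [Nat.mod_eq_of_lt hi, Nat.mod_eq_of_lt hj] at h

lemma evenRule_win {k m : ℕ} (x : ZMod (k + 1) → Fin m) (p : ZMod (k + 1))
    (hp : ∀ q, q ≠ p → x q < x p) (j : ℕ) (hj : j < k) :
    evenRule (win x (p - (j : ZMod (k + 1)))) = decide (j % 2 = 0) := by
  have e : win x (p - (j : ZMod (k + 1))) ⟨j, hj⟩ = x p := by
    unfold win
    simp
  apply evenRule_eq _ (⟨j, hj⟩ : Fin k)
  intro i hi
  rw [e]
  apply hp
  intro h
  apply hi
  apply Fin.ext
  have h1 : ((i : ℕ) : ZMod (k + 1)) = (j : ZMod (k + 1)) := by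
    have : p - (j : ZMod (k + 1)) + ((i : ℕ) : ZMod (k + 1)) = p := h
    calc ((i : ℕ) : ZMod (k + 1)) = (p - (j : ZMod (k + 1)) + ((i : ℕ) : ZMod (k + 1))) - p + j := by
          ring
      _ = j := by rw [this]; ring
  exact natCast_inj (by omega) (by omega) h1

/-- A cyclic word with a unique maximum has at least `k / 2` rotations with the pattern
`10`. -/
lemma half_le_card {k m : ℕ} (hk : Even k) (x : ZMod (k + 1) → Fin m) (p : ZMod (k + 1))
    (hp : ∀ q, q ≠ p → x q < x p) :
    k / 2 ≤ (Finset.univ.filter fun a : ZMod (k + 1) =>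
      evenRule (win x a) = true ∧ evenRule (win x (a + 1)) = false).card := by
  classical
  rcases Nat.eq_zero_or_pos k with hk0 | hkpos
  · subst hk0
    simp
  have hk2 : k / 2 * 2 = k := Nat.div_mul_cancel hk.two_dvd
  set W := evenRule (win x (p + 1)) with hW
  have hlast : p - ((k / 2 * 2 : ℕ) : ZMod (k + 1)) = p + 1 := by
    rw [hk2]
    have : ((k + 1 : ℕ) : ZMod (k + 1)) = 0 := ZMod.natCast_self _
    push_cast at this
    linear_combination -this
  have hinj : ∀ s : Finset ℕ, (∀ i ∈ s, i ≤ k / 2) →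
      (s.image fun i : ℕ => p - ((i * 2 : ℕ) : ZMod (k + 1))).card = s.card := by
    intro s hs
    apply Finset.card_image_of_injOn
    intro i hi i' hi' h
    have h1 := hs i hi
    have h2 := hs i' hi'
    simp only at h
    have h3 := sub_right_injective h
    have := natCast_inj (k := k) (by omega) (by omega) h3
    omega
  have hmid : ∀ i : ℕ, 1 ≤ i → i < k / 2 →
      evenRule (win x (p - ((i * 2 : ℕ) : ZMod (k + 1)))) = true ∧
      evenRule (win x (p - ((i * 2 : ℕ) : ZMod (k + 1)) + 1)) = false := by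
    intro i hi1 hi2
    constructor
    · rw [evenRule_win x p hp (i * 2) (by omega)]
      simp
    · have : p - ((i * 2 : ℕ) : ZMod (k + 1)) + 1 = p - ((i * 2 - 1 : ℕ) : ZMod (k + 1)) := by
        rw [Nat.cast_sub (by omega)]
        push_cast
        ring
      rw [this, evenRule_win x p hp (i * 2 - 1) (by omega)]
      simp only [decide_eq_false_iff_not]
      omega
  cases hb : W with
  | false =>
    rw [← Finset.card_range (k / 2), ← hinj (Finset.range (k / 2))
      (fun i hi => (Finset.mem_range.1 hi).le)]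
    apply Finset.card_le_card
    intro a ha
    rw [Finset.mem_image] at ha
    obtain ⟨i, hi, rfl⟩ := ha
    rw [Finset.mem_range] at hi
    rw [Finset.mem_filter]
    refine ⟨Finset.mem_univ _, ?_⟩
    rcases Nat.eq_zero_or_pos i with h0 | h0
    · subst h0
      constructor
      · have := evenRule_win x p hp 0 hkpos
        simpa using this
      · simp only [zero_mul, Nat.cast_zero, sub_zero]
        rw [← hb, hW]
    · exact hmid i h0 hi
  | true =>
    have hcard : (Finset.Icc 1 (k / 2)).card = k / 2 := by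
      rw [Nat.card_Icc]
      omega
    rw [← hcard, ← hinj (Finset.Icc 1 (k / 2)) (fun i hi => (Finset.mem_Icc.1 hi).2)]
    apply Finset.card_le_card
    intro a ha
    rw [Finset.mem_image] at ha
    obtain ⟨i, hi, rfl⟩ := ha
    rw [Finset.mem_Icc] at hi
    rw [Finset.mem_filter]
    refine ⟨Finset.mem_univ _, ?_⟩
    rcases Nat.lt_or_ge i (k / 2) with h1 | h1
    · exact hmid i hi.1 h1
    · have : i = k / 2 := by omega
      subst this
      constructor
      · rw [hlast, ← hW]
        exact hb
      · have : p - ((k / 2 * 2 : ℕ) : ZMod (k + 1)) + 1 =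
            p - ((k - 1 : ℕ) : ZMod (k + 1)) := by
          rw [hk2, Nat.cast_sub (by omega)]
          push_cast
          ring
        rw [this, evenRule_win x p hp (k - 1) (by omega)]
        simp only [decide_eq_false_iff_not]
        omega

lemma card_rotation {k m : ℕ} (a : ZMod (k + 1)) :
    (Finset.univ.filter fun x : ZMod (k + 1) → Fin m =>
      evenRule (win x a) = true ∧ evenRule (win x (a + 1)) = false).card =
      dicut (evenRule : (Fin k → Fin m) → Bool) := by
  classical
  let ι : Fin (k + 1) → ZMod (k + 1) := fun i => a + ((i : ℕ) : ZMod (k + 1))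
  have hι : Function.Injective ι := by
    intro i j hij
    apply Fin.ext
    exact natCast_inj i.isLt j.isLt (add_left_cancel hij)
  have hbij : Function.Bijective ι := by
    rw [Fintype.bijective_iff_injective_and_card]
    exact ⟨hι, by rw [ZMod.card, Fintype.card_fin]⟩
  have hw : ∀ x : ZMod (k + 1) → Fin m, win x a = fun j : Fin k => (x ∘ ι) j.castSucc := by
    intro x
    rfl
  have hw' : ∀ x : ZMod (k + 1) → Fin m, win x (a + 1) = fun j : Fin k => (x ∘ ι) j.succ := by
    intro x
    funext j
    simp only [win, ι, Function.comp_apply, Fin.val_succ]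
    congr 1
    push_cast
    ring
  unfold dicut
  apply Finset.card_bij (fun x _ => x ∘ ι)
  · intro x hx
    rw [Finset.mem_filter] at hx ⊢
    rw [hw, hw'] at hx
    exact ⟨Finset.mem_univ _, hx.2⟩
  · intro x _ x' _ h
    funext b
    obtain ⟨i, rfl⟩ := hbij.2 b
    exact congrFun h i
  · intro y hy
    refine ⟨y ∘ (Equiv.ofBijective ι hbij).symm, ?_, ?_⟩
    · have e : (y ∘ (Equiv.ofBijective ι hbij).symm) ∘ ι = y := by
        funext i
        simp only [Function.comp_apply]
        congr 1
        exact (Equiv.ofBijective ι hbij).symm_apply_apply i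
      rw [Finset.mem_filter] at hy ⊢
      rw [hw, hw', e]
      exact ⟨Finset.mem_univ _, hy.2⟩
    · funext i
      simp only [Function.comp_apply]
      congr 1
      exact (Equiv.ofBijective ι hbij).symm_apply_apply i

lemma card_eq_le {k m : ℕ} (p q : ZMod (k + 1)) (hpq : q ≠ p) :
    (Finset.univ.filter fun x : ZMod (k + 1) → Fin m => x q = x p).card ≤ m ^ k := by
  classical
  have h1 : (Finset.univ.filter fun x : ZMod (k + 1) → Fin m => x q = x p).card ≤
      (Finset.univ : Finset ({a : ZMod (k + 1) // a ≠ p} → Fin m)).card := by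
    apply Finset.card_le_card_of_injOn (fun x a => x a.1)
    · intro x _
      exact Finset.mem_coe.2 (Finset.mem_univ _)
    · intro x hx x' hx' h
      have hx1 := (Finset.mem_filter.1 (Finset.mem_coe.1 hx)).2
      have hx2 := (Finset.mem_filter.1 (Finset.mem_coe.1 hx')).2
      have h' : ∀ a, a ≠ p → x a = x' a := fun a ha => congrFun h ⟨a, ha⟩
      funext a
      by_cases ha : a = p
      · subst ha
        rw [← hx1, ← hx2]
        exact h' q hpq
      · exact h' a ha
  refine h1.trans (le_of_eq ?_)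
  rw [Finset.card_univ, Fintype.card_fun, Fintype.card_fin]
  congr 1
  have : Fintype.card {a : ZMod (k + 1) // a ≠ p} = Fintype.card (ZMod (k + 1)) - 1 :=
    Set.card_ne_eq p
  rw [this, ZMod.card]
  rfl

lemma dicut_even {k m : ℕ} (hk : Even k) :
    k / 2 * m ^ (k + 1) ≤ (k + 1) * dicut (evenRule : (Fin k → Fin m) → Bool) +
      k / 2 * ((k + 1) * (k + 1) * m ^ k) := by
  classical
  set good : Finset (ZMod (k + 1) → Fin m) :=
    Finset.univ.filter fun x => ∃ p, ∀ q, q ≠ p → x q < x p with hgood
  set bad : Finset (ZMod (k + 1) → Fin m) :=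
    Finset.univ.filter fun x => ¬ ∃ p, ∀ q, q ≠ p → x q < x p with hbad
  have htot : good.card + bad.card = m ^ (k + 1) := by
    rw [hgood, hbad, Finset.card_filter_add_card_filter_not]
    rw [Finset.card_univ, Fintype.card_fun, ZMod.card, Fintype.card_fin]
  have hbadle : bad.card ≤ (k + 1) * (k + 1) * m ^ k := by
    have hsub : bad ⊆ (Finset.univ.filter fun pq : ZMod (k + 1) × ZMod (k + 1) =>
        pq.2 ≠ pq.1).biUnion (fun pq => Finset.univ.filter fun x : ZMod (k + 1) → Fin m =>
          x pq.2 = x pq.1) := by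
      intro x hx
      have hx1 := (Finset.mem_filter.1 hx).2
      obtain ⟨p, hp⟩ := Finite.exists_max x
      have : ∃ q, q ≠ p ∧ x q = x p := by
        by_contra hcon
        push Not at hcon
        exact hx1 ⟨p, fun q hq => lt_of_le_of_ne (hp q) (hcon q hq)⟩
      obtain ⟨q, hq, hqp⟩ := this
      rw [Finset.mem_biUnion]
      exact ⟨(p, q), Finset.mem_filter.2 ⟨Finset.mem_univ _, hq⟩,
        Finset.mem_filter.2 ⟨Finset.mem_univ _, hqp⟩⟩
    refine (Finset.card_le_card hsub).trans ?_
    refine (Finset.card_biUnion_le_card_mul _ _ (m ^ k) ?_).trans ?_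
    · intro pq hpq
      exact card_eq_le _ _ (Finset.mem_filter.1 hpq).2
    · apply Nat.mul_le_mul_right
      refine (Finset.card_le_univ _).trans (le_of_eq ?_)
      rw [Fintype.card_prod, ZMod.card]
  have hdc : (k + 1) * dicut (evenRule : (Fin k → Fin m) → Bool) =
      ∑ x : ZMod (k + 1) → Fin m, (Finset.univ.filter fun a : ZMod (k + 1) =>
        evenRule (win x a) = true ∧ evenRule (win x (a + 1)) = false).card := by
    have e1 : ∀ x : ZMod (k + 1) → Fin m, (Finset.univ.filter fun a : ZMod (k + 1) =>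
        evenRule (win x a) = true ∧ evenRule (win x (a + 1)) = false).card =
        ∑ a : ZMod (k + 1), if evenRule (win x a) = true ∧ evenRule (win x (a + 1)) = false
          then 1 else 0 := fun x => Finset.card_filter _ _
    simp_rw [e1]
    rw [Finset.sum_comm]
    have e2 : ∀ a : ZMod (k + 1), (∑ x : ZMod (k + 1) → Fin m,
        if evenRule (win x a) = true ∧ evenRule (win x (a + 1)) = false then 1 else 0) =
        dicut (evenRule : (Fin k → Fin m) → Bool) := by
      intro a
      rw [← Finset.card_filter]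
      exact card_rotation a
    simp_rw [e2]
    rw [Finset.sum_const, Finset.card_univ, ZMod.card, smul_eq_mul]
  have hge : k / 2 * good.card ≤ ∑ x : ZMod (k + 1) → Fin m,
      (Finset.univ.filter fun a : ZMod (k + 1) =>
        evenRule (win x a) = true ∧ evenRule (win x (a + 1)) = false).card := by
    calc k / 2 * good.card = ∑ _x ∈ good, k / 2 := by
          rw [Finset.sum_const, smul_eq_mul, mul_comm]
      _ ≤ ∑ x ∈ good, (Finset.univ.filter fun a : ZMod (k + 1) =>
          evenRule (win x a) = true ∧ evenRule (win x (a + 1)) = false).card := by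
          apply Finset.sum_le_sum
          intro x hx
          obtain ⟨p, hp⟩ := (Finset.mem_filter.1 hx).2
          exact half_le_card hk x p hp
      _ ≤ _ := Finset.sum_le_sum_of_subset (Finset.subset_univ _)
  rw [hdc]
  calc k / 2 * m ^ (k + 1) = k / 2 * good.card + k / 2 * bad.card := by
        rw [← htot, Nat.mul_add]
    _ ≤ _ := Nat.add_le_add hge (Nat.mul_le_mul_left _ hbadle)

/-- `f(n, k) ≥ k / (2k + 2)` for even `k`. -/
lemma lower {k n : ℕ} (hk : Even k) (hn : k + 1 ≤ n) :
    (k : ℝ) / (2 * k + 2) ≤ fnk n k := by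
  have hk2 : ((k / 2 : ℕ) : ℝ) = (k : ℝ) / 2 := by
    obtain ⟨j, rfl⟩ := hk
    have : (j + j) / 2 = j := by omega
    rw [this]
    push_cast
    ring
  apply le_of_forall_pos_le_add
  intro ε hε
  obtain ⟨m0, hm0⟩ := exists_nat_gt ((k : ℝ) / 2 * (k + 1) / ε)
  set m : ℕ := m0 + 1 with hm
  have hmpos : (0 : ℝ) < m := by
    rw [hm]
    positivity
  have h1 := rule_le_fnk (k := k) (m := m) (by omega) evenRule hn
  have h2 := dicut_even (k := k) (m := m) hk
  have h3 : ((k / 2 : ℕ) : ℝ) * (m : ℝ) ^ (k + 1) ≤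
      ((k : ℝ) + 1) * (dicut (evenRule : (Fin k → Fin m) → Bool) : ℝ) +
      ((k / 2 : ℕ) : ℝ) * (((k : ℝ) + 1) * ((k : ℝ) + 1) * (m : ℝ) ^ k) := by
    exact_mod_cast h2
  rw [hk2] at h3
  set d : ℝ := (dicut (evenRule : (Fin k → Fin m) → Bool) : ℝ) with hd
  have hk1 : (0 : ℝ) < (k : ℝ) + 1 := by positivity
  have h4 : (k : ℝ) / (2 * k + 2) ≤ d / (m : ℝ) ^ (k + 1) + (k : ℝ) / 2 * (k + 1) / m := by
    have e : d / (m : ℝ) ^ (k + 1) + (k : ℝ) / 2 * (k + 1) / m =
        (((k : ℝ) + 1) * d + (k : ℝ) / 2 * (((k : ℝ) + 1) * ((k : ℝ) + 1) * (m : ℝ) ^ k)) /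
          (((k : ℝ) + 1) * (m : ℝ) ^ (k + 1)) := by
      rw [pow_succ]
      field_simp
    rw [e, le_div_iff₀ (by positivity)]
    refine le_trans (le_of_eq ?_) h3
    field_simp
  have h5 : (k : ℝ) / 2 * (k + 1) / m ≤ ε := by
    rw [div_lt_iff₀ hε] at hm0
    rw [div_le_iff₀ hmpos]
    have : (m0 : ℝ) ≤ m := by
      rw [hm]
      push_cast
      linarith
    nlinarith
  linarith

/-! ### The value for even `k` and the bounds for `k = 3` -/

lemma tendsto_even {k : ℕ} (hk : Even k) :
    Tendsto (fun n => fnk n k) atTop (nhds ((k : ℝ) / (2 * k + 2))) := by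
  obtain ⟨L, hL⟩ := exists_limit k
  have h1 : (k : ℝ) / (2 * k + 2) ≤ L := by
    apply ge_of_tendsto hL
    filter_upwards [eventually_ge_atTop (k + 1)] with n hn
    exact lower hk hn
  have h2 : L ≤ (k : ℝ) / (2 * k + 2) := by
    refine (le_of_limit hL).trans (le_of_eq ?_)
    obtain ⟨j, rfl⟩ := hk
    have : (j + j + 1) / 2 = j := by omega
    rw [this]
    push_cast
    rw [div_eq_div_iff (by positivity) (by positivity)]
    ring
  rw [le_antisymm h1 h2]
  exact hL

/-- `f(n, k) ≤ f(n, k + 1)`. -/
lemma fnk_le_succ {n k : ℕ} (hn : k + 2 ≤ n) : fnk n k ≤ fnk n (k + 1) := by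
  classical
  apply csSup_le (values_nonempty _ _)
  rintro t ⟨Ω, _, P, hP, E, hE, rfl⟩
  let E' : Finset (Fin n) → Set Ω := fun S =>
    if h : S.Nonempty then E (S.erase (S.max' h)) else ∅
  have hE' : ∀ S : Finset (Fin n), S.card = k + 1 → MeasurableSet (E' S) := by
    intro S hS
    have hne : S.Nonempty := Finset.card_pos.1 (by omega)
    simp only [E', dif_pos hne]
    apply hE
    rw [Finset.card_erase_of_mem (Finset.max'_mem S hne), hS]
    rfl
  have hval : ∀ i : Fin (k + 1) → Fin n, StrictMono i →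
      E' (Finset.univ.image i) = E (Finset.univ.image fun j : Fin k => i j.castSucc) := by
    intro i hi
    have hne : (Finset.univ.image i).Nonempty := ⟨i 0, Finset.mem_image_of_mem i (Finset.mem_univ 0)⟩
    have hmax : (Finset.univ.image i).max' hne = i (Fin.last k) := by
      apply le_antisymm
      · apply Finset.max'_le
        intro y hy
        obtain ⟨j, -, rfl⟩ := Finset.mem_image.1 hy
        exact hi.monotone (Fin.le_last j)
      · exact Finset.le_max' _ _ (Finset.mem_image_of_mem i (Finset.mem_univ _))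
    simp only [E', dif_pos hne]
    rw [hmax]
    congr 1
    ext y
    simp only [Finset.mem_erase, Finset.mem_image, Finset.mem_univ, true_and]
    constructor
    · rintro ⟨h1, j, rfl⟩
      have hj : j ≠ Fin.last k := fun h => h1 (by rw [h])
      exact ⟨j.castPred hj, by rw [Fin.castSucc_castPred]⟩
    · rintro ⟨j, rfl⟩
      refine ⟨?_, j.castSucc, rfl⟩
      intro h
      exact (Fin.castSucc_lt_last j).ne (hi.injective h)
  have hmem : sysValue P (k + 1) n E' ∈ values n (k + 1) := ⟨Ω, _, P, hP, _, hE', rfl⟩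
  refine le_trans ?_ (le_csSup (bddAbove_values (by omega)) hmem)
  apply le_sysValue P (by omega)
  rintro A B ⟨i, hi, rfl, rfl⟩
  rw [hval (fun j : Fin (k + 1) => i j.castSucc) (hi.comp Fin.strictMono_castSucc),
    hval (fun j : Fin (k + 1) => i j.succ) (hi.comp Fin.strictMono_succ)]
  apply sysValue_le
  exact ⟨fun j : Fin (k + 1) => i j.castSucc, hi.comp Fin.strictMono_castSucc, rfl, rfl⟩

/-- The Trotter-Winkler value `f(4) = 2/5` is correct, and their value `f(3) = 3/8` is not:
`f(3)` lies in `[97/256, 2/5]`. -/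
theorem result : Tendsto (fun n => fnk n 4) atTop (nhds (2 / 5)) ∧
    ∃ L : ℝ, Tendsto (fun n => fnk n 3) atTop (nhds L) ∧ 97 / 256 ≤ L ∧ L ≤ 2 / 5 ∧
      L ≠ 3 / 8 := by
  have h4 : Tendsto (fun n => fnk n 4) atTop (nhds (2 / 5)) := by
    have := tendsto_even (k := 4) (by decide)
    norm_num at this
    exact this
  refine ⟨h4, ?_⟩
  obtain ⟨L, hL, h1, h2⟩ := FThree.result
  refine ⟨L, hL, h1, ?_, h2.ne'⟩
  apply le_of_tendsto_of_tendsto hL h4
  filter_upwards [eventually_ge_atTop 5] with n hn
  exact fnk_le_succ hn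

end Pool.Agent.Results.MP_4e1dcd_co.FFour
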