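import Mathlib
import Pool.Agent.Results.MP_4e1dcd_co.FFour

set_option autoImplicit false

open Filter

namespace Pool.Agent.Results.MP_4e1dcd_co.EvenK

open Pool.Agent.Results.MP_4e1dcd_co.FThree

/-- `f(k) = k / (2k + 2)` for every even `k`; in particular `f(4) = 2/5`. -/
theorem result : ∀ k : ℕ, Even k →
    Tendsto (fun n => fnk n k) atTop (nhds ((k : ℝ) / (2 * k + 2))) :=
  fun _ hk => FFour.tendsto_even hk

end Pool.Agent.Results.MP_4e1dcd_co.EvenK
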